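import Pool.Agent.Helper51_Equitable.Basic

/-!
# Equitable labellings of bipartite graphs: edge sets and their degrees
-/

open Finset SimpleGraph Pool.Agent.Helper51_Equitable

namespace Pool.Agent.EQB

open Classical in
/-- the number of edges of `J` at `v` -/
noncomputable def dJ {V : Type} (J : Finset (Sym2 V)) (v : V) : ℕ := (J.filter fun e => v ∈ e).card

/-- the degree of `v` in `G` -/
noncomputable def dg {V : Type} [Fintype V] (G : SimpleGraph V) (v : V) : ℕ := dJ (edges G) v

section
variable {V : Type}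

theorem dJ_empty (v : V) : dJ (∅ : Finset (Sym2 V)) v = 0 := by
  simp [dJ]

theorem dJ_mono {J K : Finset (Sym2 V)} (h : J ⊆ K) (v : V) : dJ J v ≤ dJ K v := by
  classical
  exact Finset.card_le_card (Finset.filter_subset_filter _ h)

theorem dJ_pos {J : Finset (Sym2 V)} {v : V} : 0 < dJ J v ↔ ∃ e ∈ J, v ∈ e := by
  classical
  unfold dJ
  rw [Finset.card_pos]
  constructor
  · rintro ⟨e, he⟩
    exact ⟨e, (Finset.mem_filter.1 he).1, (Finset.mem_filter.1 he).2⟩
  · rintro ⟨e, he, hv⟩
    exact ⟨e, Finset.mem_filter.2 ⟨he, hv⟩⟩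

open Classical in
theorem dJ_union {J K : Finset (Sym2 V)} (h : Disjoint J K) (v : V) :
    dJ (J ∪ K) v = dJ J v + dJ K v := by
  unfold dJ
  rw [Finset.filter_union, Finset.card_union_of_disjoint]
  exact Finset.disjoint_filter_filter h

open Classical in
theorem dJ_biUnion {ι : Type} (s : Finset ι) (Z : ι → Finset (Sym2 V))
    (h : ∀ i ∈ s, ∀ j ∈ s, i ≠ j → Disjoint (Z i) (Z j)) (v : V) :
    dJ (s.biUnion Z) v = ∑ i ∈ s, dJ (Z i) v := by
  unfold dJ
  rw [Finset.filter_biUnion, Finset.card_biUnion]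
  intro i hi j hj hij
  exact Finset.disjoint_filter_filter (h i hi j hj hij)

open Classical in
theorem dJ_sdiff {J K : Finset (Sym2 V)} (h : J ⊆ K) (v : V) :
    dJ (K \ J) v + dJ J v = dJ K v := by
  rw [← dJ_union Finset.sdiff_disjoint, Finset.sdiff_union_of_subset h]

open Classical in
/-- degrees modulo 2 are additive for the symmetric difference -/
theorem dJ_symmDiff (J K : Finset (Sym2 V)) (v : V) :
    Odd (dJ (symmDiff J K) v) ↔ (Odd (dJ J v) ↔ ¬ Odd (dJ K v)) := by
  have h1 : dJ (symmDiff J K) v = dJ (J \ K) v + dJ (K \ J) v := by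
    rw [← dJ_union]
    · rfl
    · exact disjoint_sdiff_sdiff
  have h2 : dJ (J \ K) v + dJ (J ∩ K) v = dJ J v := by
    rw [← dJ_union, Finset.sdiff_union_inter]
    exact Finset.disjoint_sdiff_inter J K
  have h3 : dJ (K \ J) v + dJ (K ∩ J) v = dJ K v := by
    rw [← dJ_union, Finset.sdiff_union_inter]
    exact Finset.disjoint_sdiff_inter K J
  rw [Finset.inter_comm] at h3
  rw [h1, ← h2, ← h3]
  generalize dJ (J \ K) v = a
  generalize dJ (K \ J) v = b
  generalize dJ (J ∩ K) v = c
  rw [Nat.odd_iff, Nat.odd_iff, Nat.odd_iff]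
  omega

/-- one edge -/
theorem dJ_singleton [DecidableEq V] (e : Sym2 V) (v : V) :
    dJ {e} v = if v ∈ e then 1 else 0 := by
  classical
  unfold dJ
  rw [Finset.filter_singleton]
  split_ifs with h
  · rfl
  · rfl

open Classical in
/-- In a bipartite edge set the degrees of one side add up to the number of edges. -/
theorem sum_dJ_side [Fintype V] (J : Finset (Sym2 V)) (X : V → Prop)
    (h : ∀ x y, s(x, y) ∈ J → (X x ↔ ¬ X y)) :
    ∑ y ∈ univ.filter (fun y => ¬ X y), dJ J y = J.card := by
  have h1 : ∀ y, dJ J y = ∑ e ∈ J, if y ∈ e then 1 else 0 := fun y => by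
    unfold dJ
    rw [Finset.card_filter]
  simp_rw [h1]
  rw [Finset.sum_comm, Finset.card_eq_sum_ones]
  refine Finset.sum_congr rfl fun e he => ?_
  induction e using Sym2.ind with
  | _ a b =>
    rw [← Finset.sum_filter, Finset.filter_filter, ← Finset.card_eq_sum_ones, Finset.card_eq_one]
    have h2 := h a b he
    by_cases ha : X a
    · refine ⟨b, ?_⟩
      ext y
      rw [Finset.mem_filter, Finset.mem_singleton, Sym2.mem_iff]
      constructor
      · rintro ⟨_, hy, rfl | rfl⟩
        · exact absurd ha hy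
        · rfl
      · rintro rfl
        exact ⟨Finset.mem_univ _, h2.1 ha, Or.inr rfl⟩
    · have hb : X b := by
        by_contra hb
        exact ha (h2.2 hb)
      refine ⟨a, ?_⟩
      ext y
      rw [Finset.mem_filter, Finset.mem_singleton, Sym2.mem_iff]
      constructor
      · rintro ⟨_, hy, rfl | rfl⟩
        · rfl
        · exact absurd hb hy
      · rintro rfl
        exact ⟨Finset.mem_univ _, ha, Or.inl rfl⟩

open Classical in
/-- the vertex sum as a sum over the edges at the vertex -/
theorem vertexSum_eq_edges [Fintype V] (G : SimpleGraph V) (ℓ : Sym2 V → ℕ) (v : V) :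
    vertexSum G ℓ v = ∑ e ∈ (edges G).filter (fun e => v ∈ e), ℓ e := by
  rw [vertexSum_eq]
  refine Finset.sum_bij (fun w _ => s(v, w)) ?_ ?_ ?_ ?_
  · intro w hw
    exact Finset.mem_filter.2 ⟨mem_edges.2 (mem_nbrs.1 hw), Sym2.mem_mk_left v w⟩
  · intro w hw w' hw' h
    exact Sym2.congr_right.1 h
  · intro e he
    obtain ⟨he, hv⟩ := Finset.mem_filter.1 he
    obtain ⟨w, rfl⟩ := Sym2.mem_iff_exists.1 hv
    exact ⟨w, mem_nbrs.2 (mem_edges.1 he), rfl⟩
  · intro w _
    rfl

/-- the degree counts the neighbours -/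
theorem dg_eq_nbrs [Fintype V] (G : SimpleGraph V) (v : V) : dg G v = (nbrs G v).card := by
  classical
  have h := vertexSum_eq_edges G (fun _ => 1) v
  rw [vertexSum_eq] at h
  simp only [Finset.sum_const, smul_eq_mul, mul_one] at h
  unfold dg dJ
  exact h.symm

theorem nb_eq [Fintype V] (G : SimpleGraph V) (ℓ : Sym2 V → ℕ) (l : ℕ) :
    nb G ℓ l = ((edges G).filter fun e => ℓ e = l).card := by
  classical
  unfold nb
  rw [← Set.ncard_coe_finset]
  congr 1
  ext e
  simp [mem_edges]

end

end Pool.Agent.EQB
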