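import Pool.Agent.EQB.Basic

/-!
# Equitable labellings of bipartite graphs: statements

Theorem: every nice bipartite graph with `8 |V| <= |E|` has an equitable proper 3-labelling.
-/

open Finset SimpleGraph Pool.Agent.Helper51_Equitable

namespace Pool.Agent.EQB

open Classical in
/-- the part of `T` in the component of `r` -/
noncomputable def inC {V : Type} (G : SimpleGraph V) (T : Finset V) (r : V) : Finset V :=
  T.filter fun v => G.Reachable r v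

theorem mem_inC {V : Type} {G : SimpleGraph V} {T : Finset V} {r v : V} :
    v ∈ inC G T r ↔ v ∈ T ∧ G.Reachable r v := by
  classical
  unfold inC
  simp only [Finset.mem_filter]

/-- **TJN**: a set `T` with an even number of vertices in every component has a join. -/
def TjnStmt : Prop := ∀ (V : Type) [Fintype V] (F : SimpleGraph V) (T : Finset V),
  (∀ r, Even (inC F T r).card) →
  ∃ J ⊆ edges F, ∀ v, Odd (dJ J v) ↔ v ∈ T

/-- **SEV**: a graph with at least `2 n` edges has a short nonempty even set of edges. -/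
def SevStmt : Prop := ∀ (V : Type) [Fintype V] [Nonempty V] (E : Finset (Sym2 V)),
  (∀ e ∈ E, ¬ e.IsDiag) → 2 * Fintype.card V ≤ E.card →
  ∃ Z ⊆ E, Z.Nonempty ∧ (∀ v, Even (dJ Z v)) ∧ Z.card ≤ 2 * (Nat.log 2 (Fintype.card V) + 1)

/-- **FAM** (uses SEV): a maximal family of disjoint short even sets. -/
def FamStmt : Prop := ∀ (V : Type) [Fintype V] [Nonempty V] (E : Finset (Sym2 V)),
  (∀ e ∈ E, ¬ e.IsDiag) →
  ∃ (r : ℕ) (Z : ℕ → Finset (Sym2 V)),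
    (∀ i < r, Z i ⊆ E ∧ (Z i).Nonempty ∧ (∀ v, Even (dJ (Z i) v)) ∧
      (Z i).card ≤ 2 * (Nat.log 2 (Fintype.card V) + 1)) ∧
    (∀ i < r, ∀ j < r, i ≠ j → Disjoint (Z i) (Z j)) ∧
    E.card < 2 * Fintype.card V + ∑ i ∈ range r, (Z i).card

/-- **GRE**: subset sums up to a gap of at most `a`. -/
def GreStmt : Prop := ∀ (a r h : ℕ) (k : ℕ → ℕ), (∀ i < r, k i ≤ a) →
  h ≤ ∑ i ∈ range r, k i + a → ∃ K ⊆ range r, ∃ t ≤ a, ∑ i ∈ K, k i + t = h

/-- **EXJ** (uses TJN, FAM, GRE): joins of a prescribed size. -/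
def ExjStmt : Prop := ∀ (V : Type) [Fintype V] [Nonempty V] (G F : SimpleGraph V) (X : V → Prop)
  (T : Finset V) (D : Finset (Sym2 V)) (τ : ℕ),
  (∀ x y, G.Adj x y → (X x ↔ ¬ X y)) → (∀ v ∈ T, X v) →
  F ≤ G → F.Reachable = G.Reachable → D ⊆ edges G → Disjoint D (edges F) →
  (∀ r, Even (inC G T r).card) →
  (edges F).card ≤ Fintype.card V → D.card ≤ Fintype.card V →
  8 * Fintype.card V ≤ (edges G).card → Even τ →
  2 * (edges G).card ≤ 3 * τ + 2 → 3 * τ ≤ 2 * (edges G).card + 2 →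
  ∃ J ⊆ edges G, D ⊆ J ∧ J.card = τ ∧ ∀ v, Odd (dJ J v) ↔ v ∈ T

/-- **EXT**: a local extremum of the degree on an edge which is not a bridge. -/
def ExtStmt : Prop := ∀ (V : Type) [Fintype V] (G : SimpleGraph V) (r : V),
  (∀ v, G.Reachable r v → 2 ≤ dg G v) →
  ∃ u, G.Reachable r u ∧ (∃ y, G.Adj u y ∧ ¬ G.IsBridge s(u, y)) ∧
    ((∀ y, G.Adj u y → dg G u ≤ dg G y) ∨ (∀ y, G.Adj u y → dg G y ≤ dg G u))

/-- the data of the reduction -/
structure Dat {V : Type} [Fintype V] (G : SimpleGraph V) (X : V → Prop) (U : Finset V)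
    (D : Finset (Sym2 V)) : Prop where
  bip : ∀ x y, G.Adj x y → (X x ↔ ¬ X y)
  UX : ∀ u ∈ U, X u
  Uone : ∀ u ∈ U, ∀ w ∈ U, G.Reachable u w → u = w
  Dsub : D ⊆ edges G
  Dbr : ∀ e ∈ D, ¬ G.IsBridge e
  Done : ∀ e ∈ D, ∀ f ∈ D, ∀ x ∈ e, ∀ y ∈ f, G.Reachable x y → e = f
  even : ∀ T : Finset V, (∀ v, v ∈ T ↔ X v ∧ v ∉ U) →
    ∀ r, Even (inC G T r).card
  ext : ∀ u ∈ U, (dg G u = 1 ∧ ∀ y, G.Adj u y → 2 ≤ dg G y) ∨
    ((∃ e ∈ D, u ∈ e) ∧ ((∀ y, G.Adj u y → dg G u ≤ dg G y) ∨ (∀ y, G.Adj u y → dg G y ≤ dg G u)))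

/-- **DAT** (uses EXT): every nice bipartite graph has these data. -/
def DatStmt : Prop := ∀ (V : Type) [Fintype V] (G : SimpleGraph V), Nice G → G.IsBipartite →
  ∃ (X : V → Prop) (U : Finset V) (D : Finset (Sym2 V)), Dat G X U D

/-- **FOR**: a spanning forest which avoids `D`. -/
def ForStmt : Prop := ∀ (V : Type) [Fintype V] (G : SimpleGraph V) (D : Finset (Sym2 V)),
  D ⊆ edges G → (∀ e ∈ D, ¬ G.IsBridge e) →
  (∀ e ∈ D, ∀ f ∈ D, ∀ x ∈ e, ∀ y ∈ f, G.Reachable x y → e = f) →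
  D.card ≤ Fintype.card V ∧ ∃ F ≤ G, F.Reachable = G.Reachable ∧ Disjoint D (edges F) ∧
    (edges F).card ≤ Fintype.card V

/-- **HLF**: half of the edges of `J` at every `y` outside `X`. -/
def HlfStmt : Prop := ∀ (V : Type) [Fintype V] (J : Finset (Sym2 V)) (X : V → Prop) (U : Finset V)
  (lo : V → Prop),
  (∀ x y, s(x, y) ∈ J → (X x ↔ ¬ X y)) → (∀ y, ¬ X y → Even (dJ J y)) →
  (∀ u ∈ U, X u) → (∀ u ∈ U, ∀ w ∈ U, ∀ y, s(u, y) ∈ J → s(w, y) ∈ J → u = w) →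
  ∃ A ⊆ J, (∀ y, ¬ X y → 2 * dJ A y = dJ J y) ∧
    (∀ u ∈ U, lo u → dJ A u = dJ J u) ∧ (∀ u ∈ U, ¬ lo u → dJ A u = 0)

open Classical in
/-- the labelling: 2 outside `J`, 1 on `A`, 3 on the rest of `J` -/
noncomputable def lab {V : Type} (J A : Finset (Sym2 V)) (e : Sym2 V) : ℕ :=
  if e ∈ A then 1 else if e ∈ J then 3 else 2

/-- **LBL**: sums and counts of the labelling. -/
def LblStmt : Prop := ∀ (V : Type) [Fintype V] (G : SimpleGraph V) (J A : Finset (Sym2 V)),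
  J ⊆ edges G → A ⊆ J →
  (∀ v, vertexSum G (lab J A) v + 2 * dJ A v = 2 * dg G v + dJ J v) ∧
  nb G (lab J A) 1 = A.card ∧ nb G (lab J A) 2 + J.card = (edges G).card ∧
  nb G (lab J A) 3 + A.card = J.card ∧
  ∀ l, l ≠ 1 → l ≠ 2 → l ≠ 3 → nb G (lab J A) l = 0

/-- the main theorem -/
def MainStmt : Prop := ∀ (V : Type) [Fintype V] (G : SimpleGraph V), Nice G → G.IsBipartite →
  8 * Fintype.card V ≤ (edges G).card → ∃ ℓ : Sym2 V → ℕ, IsEquitableProper G 3 ℓ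

end Pool.Agent.EQB
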